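import Mathlib
import Pool.Agent.Helper224_t4.Bridge

/-!
# Symplectic forms on the 4-torus taming structures invariant under a 2-torus

Let `η₀` and `η₁` be symplectic forms on the torus `ℝ^4 / ℤ^4` in the class of the linear form `A`.
Suppose that for each of them there is a two-dimensional subtorus `T`, on which `A` does not
vanish, such that for every `x` and every `v ≠ 0` there is `w` such that the form is positive on
`(v, w)` at `x` and its integral over the `T`-orbit of `x` is positive. This holds for instance if
the form is invariant under `T` or tames an almost complex structure which is invariant under `T`.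
Then the two forms are joined by a smooth path of symplectic forms in the class of `A`.
-/

set_option autoImplicit false

open scoped ContDiff

namespace Pool.Agent.Results.MP_469ed1_gt.TorusPositive

open Pool.Agent.Helper224_t4P

theorem result (A : Bf) (η₀ η₁ : (Fin 4 → ℝ) → Bf) (h₀ : IsSymp A η₀) (h₁ : IsSymp A η₁)
    (t₀ : TorusPos A η₀) (t₁ : TorusPos A η₁) :
    ∃ Ω : ℝ → (Fin 4 → ℝ) → Bf, SmoothFamily Ω ∧ Ω 0 = η₀ ∧ Ω 1 = η₁ ∧
      ∀ t ∈ Set.Icc (0 : ℝ) 1, IsSymp A (Ω t) :=
  Pool.Agent.Helper224_t4.main' h₀ h₁ t₀ t₁

end Pool.Agent.Results.MP_469ed1_gt.TorusPositive
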